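import Pool.Agent.Helper98.WF.St

/-!
# Project WF, module IND: weight three
-/

set_option autoImplicit false

namespace Pool.Agent.Helper12.WF.M_IND

open Pool.Agent.Helper98.WF
open Polynomial

section

variable {F E : Type} [Field F] [AddCommGroup E] [Module ℚ E] (L : F[X] → E)

theorem VT_mono (d : ℕ) {T T' : Set F[X]} (h : T ⊆ T') : VT L d T ≤ VT L d T' :=
  sup_le_sup le_rfl (Submodule.span_mono (Set.image_mono h))

theorem VT_empty (d : ℕ) : VT L d ∅ = Sm L d := by
  simp [VT]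

end

theorem finite_case (hSTP : StSTP) (p : ℕ) [Fact p.Prime] (F E : Type) [Field F] [CharP F p]
    [AddCommGroup E] [Module ℚ E] (L : F[X] → E) (φ : E →ₗ[ℚ] E →ₗ[ℚ] E →ₗ[ℚ] ℚ)
    (hA : Alg p F) (hL : Lg L) (h3 : Adm3 φ) (hS : Ste3 L φ) (d : ℕ)
    (h0 : ∀ x ∈ Sm L d, ∀ y ∈ Sm L d, ∀ z ∈ Sm L d, φ x y z = 0) (T : Finset F[X])
    (hT : ∀ P ∈ T, PrD d P) :
    ∀ x ∈ VT L d (T : Set F[X]), ∀ y ∈ VT L d (T : Set F[X]), ∀ z ∈ VT L d (T : Set F[X]),
      φ x y z = 0 := by
  classical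
  induction T using Finset.induction_on with
  | empty =>
    rw [Finset.coe_empty, VT_empty]
    exact h0
  | insert P T hP ih =>
    rw [Finset.coe_insert]
    refine hSTP p F E L d P (T : Set F[X]) φ hA hL (hT P (Finset.mem_insert_self P T)) ?_ h3 hS
      (ih (fun P' hP' => hT P' (Finset.mem_insert_of_mem hP')))
    intro P' hP'
    have hP'' : P' ∈ T := hP'
    exact ⟨hT P' (Finset.mem_insert_of_mem hP''), fun h => hP (h ▸ hP'')⟩

theorem stIND (hSTP : StSTP) (hGEN : StGEN) : StIND := by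
  classical
  intro p _ F E _ _ _ _ L φ hA hL hfull h3 hS
  obtain ⟨-, -, hmono, hone, hstep, hVT, hfin⟩ := hGEN F E L hL
  have key : ∀ d : ℕ, ∀ x ∈ Sm L (d + 1), ∀ y ∈ Sm L (d + 1), ∀ z ∈ Sm L (d + 1),
      φ x y z = 0 := by
    intro d
    induction d with
    | zero =>
      intro x hx y _ z _
      rw [hone x hx]
      simp
    | succ d ih =>
      intro x hx y hy z hz
      have e := hstep (d + 1) (by omega)
      obtain ⟨T₁, h₁, hx'⟩ := hfin (d + 1) _ x (e hx)
      obtain ⟨T₂, h₂, hy'⟩ := hfin (d + 1) _ y (e hy)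
      obtain ⟨T₃, h₃, hz'⟩ := hfin (d + 1) _ z (e hz)
      refine finite_case hSTP p F E L φ hA hL h3 hS (d + 1) ih (T₁ ∪ T₂ ∪ T₃) ?_ x
        (VT_mono L (d + 1) ?_ hx') y (VT_mono L (d + 1) ?_ hy') z (VT_mono L (d + 1) ?_ hz')
      · intro P hP
        rw [Finset.mem_union, Finset.mem_union] at hP
        rcases hP with (hP | hP) | hP
        · exact h₁ hP
        · exact h₂ hP
        · exact h₃ hP
      · intro P hP
        have hP' : P ∈ T₁ := hP
        show P ∈ T₁ ∪ T₂ ∪ T₃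
        exact Finset.mem_union_left _ (Finset.mem_union_left _ hP')
      · intro P hP
        have hP' : P ∈ T₂ := hP
        show P ∈ T₁ ∪ T₂ ∪ T₃
        exact Finset.mem_union_left _ (Finset.mem_union_right _ hP')
      · intro P hP
        have hP' : P ∈ T₃ := hP
        show P ∈ T₁ ∪ T₂ ∪ T₃
        exact Finset.mem_union_right _ hP'
  intro x y z
  obtain ⟨a, ha⟩ := hfull x
  obtain ⟨b, hb⟩ := hfull y
  obtain ⟨c, hc⟩ := hfull z
  exact key (a + b + c) x (hmono a _ (by omega) ha) y (hmono b _ (by omega) hb) z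
    (hmono c _ (by omega) hc)

end Pool.Agent.Helper12.WF.M_IND
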